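import Pool.Agent.H933.LL.Stm

/-!
# Domar's theorem in the plane

Proof (chain of discs). `u = log⁺ ‖g‖`, `F k = {e^k ≤ u < e^(k+1)}` in the disc `ball z₀ ρ`, `f k = |F k|`;
`∑ k^q f k ≤ I`. If `u c ≥ e^(m+1)` and `R² ≥ 2 (f m + f (m+1))`, then there is a point of `ball c R` with
`u ≥ e^(m+2)` (sub-mean value property). With `R k = a k^q (f k + f (k+1)) + 1 / (2 a k^q)` one has
`R k ^ 2 ≥ 2 (f k + f (k+1))` and `∑_{k ≥ n} R k < ρ` for large `n`, so `u z₀ ≥ e^(n+1)` gives points of the disc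
with arbitrarily large `u`.
-/

set_option autoImplicit false

open MeasureTheory Metric
open scoped Real

namespace Pool.Agent.H337.LL

open Pool.Agent.H933.LL

lemma real_vol_ball (a : ℂ) {r : ℝ} (hr : 0 ≤ r) : volume.real (ball a r) = r ^ 2 * π := by
  rw [Measure.real, Complex.volume_ball, ENNReal.toReal_mul, ENNReal.toReal_pow,
    ENNReal.toReal_ofReal hr]
  rfl

/-- the sublevel sets -/
def Gk (u : ℂ → ℝ) (D : Set ℂ) (k : ℕ) : Set ℂ := D ∩ u ⁻¹' Set.Iio (Real.exp k)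

/-- the layers -/
def Fk (u : ℂ → ℝ) (D : Set ℂ) (k : ℕ) : Set ℂ := Gk u D (k + 1) \ Gk u D k

lemma mem_Fk {u : ℂ → ℝ} {D : Set ℂ} {k : ℕ} {z : ℂ} :
    z ∈ Fk u D k ↔ z ∈ D ∧ Real.exp k ≤ u z ∧ u z < Real.exp (k + 1) := by
  unfold Fk Gk
  simp only [Set.mem_sdiff, Set.mem_inter_iff, Set.mem_preimage, Set.mem_Iio, Nat.cast_add,
    Nat.cast_one, not_and, not_lt]
  constructor
  · rintro ⟨⟨h1, h2⟩, h3⟩
    exact ⟨h1, h3 h1, h2⟩
  · rintro ⟨h1, h2, h3⟩
    exact ⟨⟨h1, h3⟩, fun _ => h2⟩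

lemma Fk_sub (u : ℂ → ℝ) (D : Set ℂ) (k : ℕ) : Fk u D k ⊆ D := fun _ hz => (mem_Fk.1 hz).1

lemma Fk_meas {u : ℂ → ℝ} {D : Set ℂ} (hD : IsOpen D) (hu : ContinuousOn u D) (k : ℕ) :
    MeasurableSet (Fk u D k) :=
  (hu.isOpen_inter_preimage hD isOpen_Iio).measurableSet.diff
    (hu.isOpen_inter_preimage hD isOpen_Iio).measurableSet

lemma Fk_fin (u : ℂ → ℝ) (z₀ : ℂ) (ρ : ℝ) (k : ℕ) : volume (Fk u (ball z₀ ρ) k) ≠ ⊤ :=
  ((measure_mono (Fk_sub u _ k)).trans_lt measure_ball_lt_top).ne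

lemma Fk_disj (u : ℂ → ℝ) (D : Set ℂ) {k l : ℕ} (hkl : k < l) : Disjoint (Fk u D k) (Fk u D l) := by
  rw [Set.disjoint_left]
  intro z h1 h2
  have h3 := (mem_Fk.1 h1).2.2
  have h4 := (mem_Fk.1 h2).2.1
  have h5 : Real.exp ((k : ℝ) + 1) ≤ Real.exp (l : ℝ) := Real.exp_le_exp.2 (by exact_mod_cast hkl)
  linarith

/-- the layers and the integral -/
lemma layers_sum {u : ℂ → ℝ} {z₀ : ℂ} {ρ q : ℝ} (hq : 0 < q)
    (hu : ContinuousOn u (closedBall z₀ ρ)) (s : Finset ℕ) :
    ∑ k ∈ s, (k : ℝ) ^ q * volume.real (Fk u (ball z₀ ρ) k) ≤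
      ∫ z in ball z₀ ρ, (Real.posLog (u z)) ^ q := by
  have hcont : ContinuousOn (fun z => (Real.posLog (u z)) ^ q) (closedBall z₀ ρ) :=
    (Real.continuous_posLog.comp_continuousOn hu).rpow_const (fun _ _ => Or.inr hq.le)
  have hint : IntegrableOn (fun z => (Real.posLog (u z)) ^ q) (ball z₀ ρ) :=
    (hcont.integrableOn_compact (isCompact_closedBall _ _)).mono_set ball_subset_closedBall
  have hmeas : ∀ k, MeasurableSet (Fk u (ball z₀ ρ) k) :=
    Fk_meas isOpen_ball (hu.mono ball_subset_closedBall)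
  have hsub : ∀ k, Fk u (ball z₀ ρ) k ⊆ ball z₀ ρ := Fk_sub u _
  have h1 : ∀ k ∈ s, (k : ℝ) ^ q * volume.real (Fk u (ball z₀ ρ) k) ≤
      ∫ z in Fk u (ball z₀ ρ) k, (Real.posLog (u z)) ^ q := by
    intro k _
    have e : ∫ _z in Fk u (ball z₀ ρ) k, (k : ℝ) ^ q =
        (k : ℝ) ^ q * volume.real (Fk u (ball z₀ ρ) k) := by
      rw [setIntegral_const, smul_eq_mul, mul_comm]
    rw [← e]
    apply setIntegral_mono_on (integrableOn_const (Fk_fin u z₀ ρ k)) (hint.mono_set (hsub k))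
      (hmeas k)
    intro z hz
    apply Real.rpow_le_rpow (Nat.cast_nonneg _) _ hq.le
    calc (k : ℝ) = Real.log (Real.exp k) := (Real.log_exp _).symm
      _ ≤ Real.log (u z) := Real.log_le_log (Real.exp_pos _) (mem_Fk.1 hz).2.1
      _ ≤ _ := le_max_right _ _
  refine (Finset.sum_le_sum h1).trans ?_
  rw [← integral_biUnion_finset s (fun k _ => hmeas k) ?_ (fun k _ => hint.mono_set (hsub k))]
  · exact setIntegral_mono_set hint
      (ae_of_all _ fun z => Real.rpow_nonneg Real.posLog_nonneg _)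
      (LE.le.eventuallyLE (Set.iUnion₂_subset fun k _ => hsub k))
  · intro k _ l _ hkl
    rcases lt_or_gt_of_ne hkl with h | h
    · exact Fk_disj u _ h
    · exact (Fk_disj u _ h).symm

/-- one step of the chain -/
lemma step (h : P_mean) {g : ℂ → ℂ} {U : Set ℂ} (hU : IsOpen U) (hg : DifferentiableOn ℂ g U)
    {z₀ : ℂ} {ρ : ℝ} (hB : closedBall z₀ ρ ⊆ U) {c : ℂ} {R : ℝ} (hR : 0 < R)
    (hc : closedBall c R ⊆ ball z₀ ρ) {m : ℕ} (hm : Real.exp (m + 1) ≤ Real.posLog ‖g c‖)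
    (hRR : 2 * (volume.real (Fk (fun z => Real.posLog ‖g z‖) (ball z₀ ρ) m) +
      volume.real (Fk (fun z => Real.posLog ‖g z‖) (ball z₀ ρ) (m + 1))) ≤ R ^ 2) :
    ∃ z ∈ ball c R, Real.exp (m + 2) ≤ Real.posLog ‖g z‖ := by
  by_contra hcon
  push Not at hcon
  set u : ℂ → ℝ := fun z => Real.posLog ‖g z‖ with hu
  have hucont : ContinuousOn u U := Real.continuous_posLog.comp_continuousOn hg.continuousOn.norm
  have hsub1 : ball c R ⊆ ball z₀ ρ := ball_subset_closedBall.trans hc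
  have hsub2 : closedBall c R ⊆ U := hc.trans (ball_subset_closedBall.trans hB)
  have h1 : π * R ^ 2 * u c ≤ ∫ z in ball c R, u z := h g U c R hU hR hsub2 hg
  set F0 := Fk u (ball z₀ ρ) m with hF0
  set F1 := Fk u (ball z₀ ρ) (m + 1) with hF1
  have huB : ContinuousOn u (ball z₀ ρ) := hucont.mono (ball_subset_closedBall.trans hB)
  have hFm : MeasurableSet (F0 ∪ F1) :=
    (Fk_meas isOpen_ball huB m).union (Fk_meas isOpen_ball huB (m + 1))
  have hFfin : volume (F0 ∪ F1) ≠ ⊤ :=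
    (measure_union_lt_top (lt_top_iff_ne_top.2 (Fk_fin u z₀ ρ m))
      (lt_top_iff_ne_top.2 (Fk_fin u z₀ ρ (m + 1)))).ne
  haveI hfm : IsFiniteMeasure (volume.restrict (ball c R)) :=
    ⟨by rw [Measure.restrict_apply_univ]; exact measure_ball_lt_top⟩
  have hint1 : IntegrableOn u (ball c R) :=
    ((hucont.mono hsub2).integrableOn_compact (isCompact_closedBall _ _)).mono_set
      ball_subset_closedBall
  have hi1 : Integrable (fun _ : ℂ => Real.exp (m : ℝ)) (volume.restrict (ball c R)) :=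
    integrable_const _
  have hi2 : Integrable ((F0 ∪ F1).indicator fun _ : ℂ => Real.exp ((m : ℝ) + 2))
      (volume.restrict (ball c R)) := (integrable_const _).indicator hFm
  have h2 : ∫ z in ball c R, u z ≤ ∫ z in ball c R,
      (Real.exp (m : ℝ) + (F0 ∪ F1).indicator (fun _ => Real.exp ((m : ℝ) + 2)) z) := by
    apply setIntegral_mono_on hint1 (hi1.add hi2) measurableSet_ball
    intro z hz
    show u z ≤ Real.exp (m : ℝ) + (F0 ∪ F1).indicator (fun _ => Real.exp ((m : ℝ) + 2)) z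
    have hz1 : u z < Real.exp ((m : ℝ) + 2) := hcon z hz
    have hzD := hsub1 hz
    have hpos := Real.exp_pos (m : ℝ)
    by_cases hzm : u z < Real.exp (m : ℝ)
    · have h3 : 0 ≤ (F0 ∪ F1).indicator (fun _ => Real.exp ((m : ℝ) + 2)) z :=
        Set.indicator_nonneg (fun _ _ => (Real.exp_pos _).le) z
      linarith
    · push Not at hzm
      have hzF : z ∈ F0 ∪ F1 := by
        by_cases hz2 : u z < Real.exp ((m : ℝ) + 1)
        · exact Or.inl (mem_Fk.2 ⟨hzD, hzm, hz2⟩)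
        · push Not at hz2
          refine Or.inr (mem_Fk.2 ⟨hzD, ?_, ?_⟩)
          · rw [Nat.cast_add, Nat.cast_one]
            exact hz2
          · rw [Nat.cast_add, Nat.cast_one, add_assoc, one_add_one_eq_two]
            exact hz1
      rw [Set.indicator_of_mem hzF]
      linarith
  have h3 : ∫ z in ball c R,
      (Real.exp (m : ℝ) + (F0 ∪ F1).indicator (fun _ => Real.exp ((m : ℝ) + 2)) z) =
      Real.exp m * (R ^ 2 * π) +
        (volume.restrict (ball c R)).real (F0 ∪ F1) * Real.exp ((m : ℝ) + 2) := by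
    rw [integral_add hi1 hi2, setIntegral_const, real_vol_ball c hR.le, smul_eq_mul,
      integral_indicator_const _ hFm, smul_eq_mul, mul_comm (R ^ 2 * π)]
  have h4 : (volume.restrict (ball c R)).real (F0 ∪ F1) ≤ R ^ 2 / 2 := by
    have h5 : (volume.restrict (ball c R)).real (F0 ∪ F1) ≤ volume.real (F0 ∪ F1) :=
      ENNReal.toReal_mono hFfin (Measure.restrict_apply_le _ _)
    have h6 : volume.real (F0 ∪ F1) ≤ volume.real F0 + volume.real F1 := measureReal_union_le _ _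
    linarith
  have h5 : Real.exp ((m : ℝ) + 1) = Real.exp m * Real.exp 1 := Real.exp_add _ _
  have h6 : Real.exp ((m : ℝ) + 2) = Real.exp m * (Real.exp 1 * Real.exp 1) := by
    rw [← Real.exp_add 1 1, ← Real.exp_add]
    norm_num
  have hE := Real.exp_pos (m : ℝ)
  have he1 := Real.exp_one_gt_d9
  have he2 := Real.exp_one_lt_d9
  have hpi := Real.pi_gt_three
  rw [h5] at hm
  rw [h3, h6] at h2
  have h7 : π * R ^ 2 * (Real.exp m * Real.exp 1) ≤ π * R ^ 2 * u c :=
    mul_le_mul_of_nonneg_left hm (by positivity)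
  have h8 : (volume.restrict (ball c R)).real (F0 ∪ F1) *
      (Real.exp m * (Real.exp 1 * Real.exp 1)) ≤
      R ^ 2 / 2 * (Real.exp m * (Real.exp 1 * Real.exp 1)) :=
    mul_le_mul_of_nonneg_right h4 (by positivity)
  have hP : 0 < Real.exp (m : ℝ) * R ^ 2 := by positivity
  have h9 : Real.exp (m : ℝ) * R ^ 2 *
      (π * (Real.exp 1 - 1) - Real.exp 1 * Real.exp 1 / 2) ≤ 0 := by
    linarith
  have h10 : 0 < π * (Real.exp 1 - 1) - Real.exp 1 * Real.exp 1 / 2 := by
    nlinarith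
  have h11 := mul_pos hP h10
  linarith

/-- **Domar's theorem in the plane.** -/
theorem p_domar (h : P_mean) : P_domar := by
  intro q I ρ hq hI hρ
  have hq0 : 0 < q := by linarith
  set a : ℝ := ρ / (8 * (I + 1)) with ha
  have ha0 : 0 < a := by positivity
  have haI : a * (2 * I) ≤ ρ / 4 := by
    have h1 : a * (8 * (I + 1)) = ρ := by
      rw [ha]
      field_simp
    nlinarith
  -- the tail of the series
  have hsm : Summable fun k : ℕ => 1 / (k : ℝ) ^ q := Real.summable_one_div_nat_rpow.2 hq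
  have hnn : ∀ k : ℕ, 0 ≤ 1 / (k : ℝ) ^ q := fun k => by positivity
  obtain ⟨n, hn1, hn⟩ : ∃ n : ℕ, 1 ≤ n ∧ ∀ m, n ≤ m →
      ∑ k ∈ Finset.Ico n m, 1 / (k : ℝ) ^ q ≤ a * ρ := by
    have ht := hsm.hasSum.tendsto_sum_nat
    have h1 : ∀ᶠ n : ℕ in Filter.atTop, (∑' k : ℕ, 1 / (k : ℝ) ^ q) - a * ρ <
        ∑ k ∈ Finset.range n, 1 / (k : ℝ) ^ q :=
      ht.eventually_const_lt (by
        have : 0 < a * ρ := by positivity
        linarith)
    obtain ⟨n, hn, hn1⟩ := (h1.and (Filter.eventually_ge_atTop 1)).exists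
    refine ⟨n, hn1, fun m hm => ?_⟩
    have h2 := hsm.sum_le_tsum (Finset.range m) (fun k _ => hnn k)
    rw [← Finset.sum_range_add_sum_Ico _ hm] at h2
    linarith
  refine ⟨Real.exp (Real.exp (n + 1)), Real.exp_pos _, ?_⟩
  intro g U z₀ hU hB hg hint
  by_contra hcon
  push Not at hcon
  set u : ℂ → ℝ := fun z => Real.posLog ‖g z‖ with hu
  have hucont : ContinuousOn u U := Real.continuous_posLog.comp_continuousOn hg.continuousOn.norm
  have huB : ContinuousOn u (closedBall z₀ ρ) := hucont.mono hB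
  have hz0 : Real.exp (n + 1) ≤ u z₀ := by
    have h1 := Real.log_le_log (Real.exp_pos _) hcon.le
    rw [Real.log_exp] at h1
    exact h1.trans (le_max_right _ _)
  set f : ℕ → ℝ := fun k => volume.real (Fk u (ball z₀ ρ) k) with hf
  have hf0 : ∀ k, 0 ≤ f k := fun k => measureReal_nonneg
  have hfs : ∀ s : Finset ℕ, ∑ k ∈ s, (k : ℝ) ^ q * f k ≤ I := fun s =>
    (layers_sum hq0 huB s).trans hint
  let R : ℕ → ℝ := fun k => a * ((k : ℝ) ^ q * (f k + f (k + 1))) + 1 / (2 * a * (k : ℝ) ^ q)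
  have hkq : ∀ k : ℕ, n ≤ k → 0 < (k : ℝ) ^ q := fun k hk =>
    Real.rpow_pos_of_pos (by exact_mod_cast (lt_of_lt_of_le Nat.zero_lt_one (hn1.trans hk))) _
  have hR0 : ∀ k, n ≤ k → 0 < R k := by
    intro k hk
    have h1 := hkq k hk
    have h2 := hf0 k
    have h3 := hf0 (k + 1)
    show 0 < a * ((k : ℝ) ^ q * (f k + f (k + 1))) + 1 / (2 * a * (k : ℝ) ^ q)
    positivity
  have hR2 : ∀ k, n ≤ k → 2 * (f k + f (k + 1)) ≤ R k ^ 2 := by
    intro k hk
    have h1 := hkq k hk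
    set A := a * ((k : ℝ) ^ q * (f k + f (k + 1))) with hA
    set B := 1 / (2 * a * (k : ℝ) ^ q) with hBdef
    have h2 : 4 * (A * B) = 2 * (f k + f (k + 1)) := by
      rw [hA, hBdef]
      field_simp
      ring
    show _ ≤ (A + B) ^ 2
    rw [← h2]
    nlinarith [sq_nonneg (A - B)]
  have hRsum : ∀ m, n ≤ m → ∑ k ∈ Finset.Ico n m, R k < ρ := by
    intro m hm
    have e1 : ∑ k ∈ Finset.Ico n m, R k = a * ∑ k ∈ Finset.Ico n m, (k : ℝ) ^ q * f k +
        a * ∑ k ∈ Finset.Ico n m, (k : ℝ) ^ q * f (k + 1) +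
        1 / (2 * a) * ∑ k ∈ Finset.Ico n m, 1 / (k : ℝ) ^ q := by
      rw [Finset.mul_sum, Finset.mul_sum, Finset.mul_sum, ← Finset.sum_add_distrib,
        ← Finset.sum_add_distrib]
      refine Finset.sum_congr rfl fun k _ => ?_
      show a * ((k : ℝ) ^ q * (f k + f (k + 1))) + 1 / (2 * a * (k : ℝ) ^ q) = _
      rw [one_div_mul_one_div]
      ring
    have h1 := hfs (Finset.Ico n m)
    have h2 : ∑ k ∈ Finset.Ico n m, (k : ℝ) ^ q * f (k + 1) ≤ I := by
      refine le_trans ?_ (hfs (Finset.Ico (n + 1) (m + 1)))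
      rw [← Finset.sum_Ico_add' (fun k : ℕ => (k : ℝ) ^ q * f k) n m 1]
      apply Finset.sum_le_sum
      intro k _
      apply mul_le_mul_of_nonneg_right _ (hf0 _)
      apply Real.rpow_le_rpow (Nat.cast_nonneg _) _ hq0.le
      push_cast
      linarith
    have h3 := hn m hm
    have h4 : 1 / (2 * a) * ∑ k ∈ Finset.Ico n m, 1 / (k : ℝ) ^ q ≤ 1 / (2 * a) * (a * ρ) :=
      mul_le_mul_of_nonneg_left h3 (by positivity)
    have h5 : 1 / (2 * a) * (a * ρ) = ρ / 2 := by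
      field_simp
    have h6 := mul_le_mul_of_nonneg_left h1 ha0.le
    have h7 := mul_le_mul_of_nonneg_left h2 ha0.le
    rw [e1]
    linarith
  have hchain : ∀ m, n ≤ m → ∃ z, dist z z₀ ≤ ∑ k ∈ Finset.Ico n m, R k ∧
      Real.exp (m + 1) ≤ u z := by
    intro m hm
    induction m, hm using Nat.le_induction with
    | base => exact ⟨z₀, by simp, hz0⟩
    | succ m hm ih =>
      obtain ⟨z, hz1, hz2⟩ := ih
      have hlt := hRsum (m + 1) (hm.trans (Nat.le_succ m))
      rw [Finset.sum_Ico_succ_top hm] at hlt ⊢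
      have hsub : closedBall z (R m) ⊆ ball z₀ ρ := by
        intro w hw
        rw [mem_closedBall] at hw
        rw [mem_ball]
        have := dist_triangle w z z₀
        linarith
      obtain ⟨w, hw1, hw2⟩ := step h hU hg hB (hR0 m hm) hsub hz2 (hR2 m hm)
      rw [mem_ball] at hw1
      refine ⟨w, ?_, ?_⟩
      · have := dist_triangle w z z₀
        linarith
      · have e : (((m + 1 : ℕ) : ℝ) + 1) = (m : ℝ) + 2 := by
          push_cast
          ring
        rw [e]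
        exact hw2
  obtain ⟨M, hM⟩ := (isCompact_closedBall z₀ ρ).exists_bound_of_continuousOn huB
  obtain ⟨m, hm⟩ := exists_nat_gt (max M n)
  have hmM : M < m := (le_max_left _ _).trans_lt hm
  have hmn : n ≤ m := by
    have h1 : (n : ℝ) < m := (le_max_right _ _).trans_lt hm
    exact_mod_cast h1.le
  obtain ⟨z, hz1, hz2⟩ := hchain m hmn
  have hzB : z ∈ closedBall z₀ ρ := by
    rw [mem_closedBall]
    exact hz1.trans (hRsum m hmn).le
  have h1 := hM z hzB
  rw [Real.norm_eq_abs] at h1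
  have h2 := (le_abs_self _).trans h1
  have h3 := Real.add_one_le_exp ((m : ℝ) + 1)
  linarith

end Pool.Agent.H337.LL
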