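import Pool.Agent.H933.LL.Stm10

/-!
# Sets of logarithmic capacity zero are null for the area and on the real line
-/

set_option autoImplicit false

open MeasureTheory Metric
open scoped Real ENNReal

namespace Pool.Agent.H337.LL

open Pool.Agent.H933.LL

/-- the one-dimensional potential is finite -/
lemma pot_fin : ∫⁻ t : ℝ, ENNReal.ofReal (Real.posLog |t|⁻¹) ≠ ∞ := by
  have h1 : IntervalIntegrable Real.log volume (-1) 1 := intervalIntegral.intervalIntegrable_log'
  rw [intervalIntegrable_iff_integrableOn_Icc_of_le (by norm_num)] at h1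
  have h2 : ∫⁻ t in Set.Icc (-1 : ℝ) 1, ‖Real.log t‖ₑ < ∞ := h1.2
  have h3 : ∀ t : ℝ, ENNReal.ofReal (Real.posLog |t|⁻¹) ≤
      (Set.Icc (-1 : ℝ) 1).indicator (fun t => ‖Real.log t‖ₑ) t := by
    intro t
    by_cases ht : t ∈ Set.Icc (-1 : ℝ) 1
    · rw [Set.indicator_of_mem ht, Real.enorm_eq_ofReal_abs]
      apply ENNReal.ofReal_le_ofReal
      unfold Real.posLog
      apply max_le (abs_nonneg _)
      rw [Real.log_inv, Real.log_abs]
      exact neg_le_abs _
    · rw [Set.indicator_of_notMem ht, nonpos_iff_eq_zero, ENNReal.ofReal_eq_zero]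
      unfold Real.posLog
      apply max_le le_rfl
      rw [Real.log_inv, neg_nonpos]
      apply Real.log_nonneg
      by_contra h
      exact ht ⟨by linarith [neg_abs_le t, not_le.mp h], by linarith [le_abs_self t, not_le.mp h]⟩
  refine ne_of_lt (lt_of_le_of_lt (lintegral_mono h3) ?_)
  rw [lintegral_indicator measurableSet_Icc]
  exact h2

/-- the potential of a measure whose projection to the real line has bounded density -/
lemma key (s : Set ℂ) (hs : CapNull s) (μ : Measure ℂ) [IsFiniteMeasure μ] (r : ℝ)
    (hr : μ (ball (0 : ℂ) r)ᶜ = 0) (c : ℝ≥0∞) (hc : c ≠ ∞)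
    (hμ : ∀ S : Set ℝ, MeasurableSet S → μ (Complex.re ⁻¹' S) ≤ c * volume S) : μ s = 0 := by
  have hre : Measurable Complex.re := Complex.measurable_re
  have hle : Measure.map Complex.re μ ≤ c • (volume : Measure ℝ) := by
    rw [Measure.le_iff]
    intro S hS
    rw [Measure.map_apply hre hS, Measure.smul_apply, smul_eq_mul]
    exact hμ S hS
  have hC : c * ∫⁻ t : ℝ, ENNReal.ofReal (Real.posLog |t|⁻¹) ≠ ∞ :=
    ENNReal.mul_ne_top hc pot_fin
  refine hs μ inferInstance ⟨r, hr⟩ ?_ ⟨(c * ∫⁻ t : ℝ, ENNReal.ofReal (Real.posLog |t|⁻¹)).toReal, ?_⟩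
  · intro a
    have h1 : μ {a} ≤ μ (Complex.re ⁻¹' {a.re}) := by
      apply measure_mono
      rintro z rfl
      rfl
    have h2 := hμ {a.re} (measurableSet_singleton _)
    rw [Real.volume_singleton, mul_zero] at h2
    exact nonpos_iff_eq_zero.mp (h1.trans h2)
  · intro a
    rw [ENNReal.ofReal_toReal hC]
    have hmeas : Measurable (fun t : ℝ => ENNReal.ofReal (Real.posLog |t - a.re|⁻¹)) := by
      have : Measurable (fun x : ℝ => Real.posLog x) := by
        unfold Real.posLog
        exact measurable_const.max Real.measurable_log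
      exact ENNReal.measurable_ofReal.comp
        (this.comp (((measurable_id.sub_const a.re).abs).inv))
    calc ∫⁻ κ, ENNReal.ofReal (Real.posLog ‖κ - a‖⁻¹) ∂μ
        ≤ ∫⁻ κ, ENNReal.ofReal (Real.posLog |κ.re - a.re|⁻¹) ∂μ := by
          apply lintegral_mono_ae
          have hne : ∀ᵐ κ ∂μ, κ.re ≠ a.re := by
            rw [ae_iff]
            have h2 := hμ {a.re} (measurableSet_singleton _)
            rw [Real.volume_singleton, mul_zero] at h2
            refine nonpos_iff_eq_zero.mp (le_trans (measure_mono ?_) h2)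
            intro z hz
            simpa using hz
          filter_upwards [hne] with κ hκ
          apply ENNReal.ofReal_le_ofReal
          have h1 : |κ.re - a.re| ≤ ‖κ - a‖ := by
            have := Complex.abs_re_le_norm (κ - a)
            rwa [Complex.sub_re] at this
          have h0 : 0 < |κ.re - a.re| := abs_pos.mpr (sub_ne_zero.mpr hκ)
          have h2 : ‖κ - a‖⁻¹ ≤ |κ.re - a.re|⁻¹ := inv_anti₀ h0 h1
          unfold Real.posLog
          apply max_le_max le_rfl
          exact Real.log_le_log (inv_pos.mpr (lt_of_lt_of_le h0 h1)) h2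
      _ = ∫⁻ t, ENNReal.ofReal (Real.posLog |t - a.re|⁻¹) ∂(Measure.map Complex.re μ) := by
          rw [lintegral_map hmeas hre]
      _ ≤ ∫⁻ t, ENNReal.ofReal (Real.posLog |t - a.re|⁻¹) ∂(c • (volume : Measure ℝ)) :=
          lintegral_mono' hle le_rfl
      _ = c * ∫⁻ t : ℝ, ENNReal.ofReal (Real.posLog |t|⁻¹) := by
          rw [lintegral_smul_measure, smul_eq_mul]
          rw [lintegral_sub_right_eq_self (μ := (volume : Measure ℝ))
            (fun t : ℝ => ENNReal.ofReal (Real.posLog |t|⁻¹)) a.re]

/-- **P_cap**: sets of capacity zero are null for the area and meet the real line in a null set -/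
theorem p_cap : P_cap := by
  intro s hs
  constructor
  · -- the area
    have h1 : ∀ n : ℕ, volume (s ∩ ball (0 : ℂ) n) = 0 := by
      intro n
      have hfin : IsFiniteMeasure ((volume : Measure ℂ).restrict (ball (0 : ℂ) n)) :=
        ⟨by rw [Measure.restrict_apply_univ]; exact measure_ball_lt_top⟩
      have h2 := key s hs ((volume : Measure ℂ).restrict (ball (0 : ℂ) n)) n
        (by rw [Measure.restrict_apply measurableSet_ball.compl]; simp)
        (ENNReal.ofReal (2 * n)) ENNReal.ofReal_ne_top (by
          intro S hS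
          rw [Measure.restrict_apply (Complex.measurable_re hS)]
          have h3 : Complex.re ⁻¹' S ∩ ball (0 : ℂ) n ⊆
              Complex.measurableEquivRealProd ⁻¹' (S ×ˢ Set.Icc (-(n : ℝ)) n) := by
            rintro z ⟨hz1, hz2⟩
            refine ⟨hz1, ?_⟩
            have h4 := Complex.abs_im_le_norm z
            rw [mem_ball_zero_iff] at hz2
            change z.im ∈ Set.Icc (-(n : ℝ)) n
            exact abs_le.mp (h4.trans hz2.le)
          refine (measure_mono h3).trans ?_
          rw [Complex.volume_preserving_equiv_real_prod.measure_preimage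
            (hS.prod measurableSet_Icc).nullMeasurableSet, Measure.volume_eq_prod,
            Measure.prod_prod, Real.volume_Icc, mul_comm]
          apply le_of_eq
          rw [show (n : ℝ) - -(n : ℝ) = 2 * n by ring])
      rwa [Measure.restrict_apply' measurableSet_ball] at h2
    have h5 : s = ⋃ n : ℕ, s ∩ ball (0 : ℂ) n := by
      ext z
      simp only [Set.mem_iUnion, Set.mem_inter_iff, mem_ball_zero_iff, exists_and_left]
      exact ⟨fun h => ⟨h, exists_nat_gt _⟩, fun h => h.1⟩
    rw [h5]
    exact measure_iUnion_null h1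
  · -- the real line
    have hof : Measurable (fun t : ℝ => (t : ℂ)) := Complex.measurable_ofReal
    have h1 : ∀ n : ℕ, volume ({t : ℝ | (t : ℂ) ∈ s} ∩ Set.Icc (-(n : ℝ)) n) = 0 := by
      intro n
      set μ : Measure ℂ := Measure.map (fun t : ℝ => (t : ℂ))
        ((volume : Measure ℝ).restrict (Set.Icc (-(n : ℝ)) n)) with hμ
      have hfin0 : IsFiniteMeasure ((volume : Measure ℝ).restrict (Set.Icc (-(n : ℝ)) n)) :=
        ⟨by rw [Measure.restrict_apply_univ]; exact measure_Icc_lt_top⟩
      have hfin : IsFiniteMeasure μ := by rw [hμ]; infer_instance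
      have h2 := key s hs μ (n + 1)
        (by
          rw [hμ, Measure.map_apply hof measurableSet_ball.compl,
            Measure.restrict_apply (hof measurableSet_ball.compl)]
          have h3 : (fun t : ℝ => (t : ℂ)) ⁻¹' (ball (0 : ℂ) ((n : ℝ) + 1))ᶜ ∩
              Set.Icc (-(n : ℝ)) n = ∅ := by
            ext t
            simp only [Set.mem_inter_iff, Set.mem_preimage, Set.mem_compl_iff, mem_ball_zero_iff,
              Complex.norm_real, Real.norm_eq_abs, not_lt, Set.mem_Icc, Set.mem_empty_iff_false,
              iff_false, not_and]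
            intro h4 h5 h6
            have := abs_le.mpr ⟨h5, h6⟩
            linarith
          rw [h3, measure_empty])
        1 ENNReal.one_ne_top (by
          intro S hS
          rw [hμ, Measure.map_apply hof (Complex.measurable_re hS), one_mul]
          have h3 : (fun t : ℝ => (t : ℂ)) ⁻¹' (Complex.re ⁻¹' S) = S := by
            ext t; simp
          rw [h3]
          exact Measure.restrict_apply_le _ _)
      obtain ⟨T, hT1, hT2, hT3⟩ := exists_measurable_superset_of_null h2
      rw [hμ, Measure.map_apply hof hT2, Measure.restrict_apply (hof hT2)] at hT3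
      refine measure_mono_null ?_ hT3
      rintro t ⟨ht1, ht2⟩
      exact ⟨hT1 ht1, ht2⟩
    have h5 : {t : ℝ | (t : ℂ) ∈ s} = ⋃ n : ℕ, {t : ℝ | (t : ℂ) ∈ s} ∩ Set.Icc (-(n : ℝ)) n := by
      ext t
      simp only [Set.mem_iUnion, Set.mem_inter_iff, exists_and_left]
      refine ⟨fun h => ⟨h, ?_⟩, fun h => h.1⟩
      obtain ⟨n, hn⟩ := exists_nat_gt |t|
      exact ⟨n, abs_le.mp hn.le⟩
    rw [h5]
    exact measure_iUnion_null h1

end Pool.Agent.H337.LL
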